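import Pool.Agent.N385.HUDG.Main

set_option autoImplicit false

/-!
# Hyperbolic uniform disk graphs whose representations need a radius that is linear in the number of
vertices

The hyperbolic plane of curvature `-1` is the upper half-plane `UpperHalfPlane` with the metric of
Mathlib.
-/

namespace Pool.Agent.Results.MP_1ad87a_co.LinearRadius

/-- `r > 0` and the points `p v` form a disk representation of `G` with radius `r`: distinct
vertices are adjacent if and only if the distance of their points is at most `2 r`. -/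
def IsDiskRep {V : Type} (G : SimpleGraph V) (r : ℝ) (p : V → UpperHalfPlane) : Prop :=
  0 < r ∧ ∀ u v : V, u ≠ v → (G.Adj u v ↔ dist (p u) (p v) ≤ 2 * r)

/-- `G` is a hyperbolic uniform disk graph. -/
def IsHUDG {V : Type} (G : SimpleGraph V) : Prop :=
  ∃ (r : ℝ) (p : V → UpperHalfPlane), IsDiskRep G r p

/-- The family `F` of graphs (with vertex sets `Fin n`) admits representations with radius
`O(log n)`. -/
def AdmitsLogRadius (F : Set (Σ n : ℕ, SimpleGraph (Fin n))) : Prop :=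
  ∃ C : ℝ, 0 < C ∧ ∀ G ∈ F, 2 ≤ G.1 →
    ∃ (r : ℝ) (p : Fin G.1 → UpperHalfPlane), IsDiskRep G.2 r p ∧ r ≤ C * Real.log G.1

open Pool.Agent.N385.HUDG in
theorem linear : ∃ c : ℝ, 0 < c ∧ ∃ n₀ : ℕ, ∀ n : ℕ, n₀ ≤ n → ∃ G : SimpleGraph (Fin n), IsHUDG G ∧
    ∀ (r : ℝ) (p : Fin n → UpperHalfPlane), IsDiskRep G r p → c * n ≤ r := by
  refine ⟨1 / 100000, by norm_num, 100000, fun n hn => ?_⟩
  let G : SimpleGraph (Fin n) :=
    { Adj := fun u v => u ≠ v ∧ dist (pos (eta n) (tt n) u) (pos (eta n) (tt n) v) ≤ 2 * rad n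
      symm := ⟨fun u v h => ⟨h.1.symm, by rw [dist_comm]; exact h.2⟩⟩
      loopless := ⟨fun u h => h.1 rfl⟩ }
  have hG : ∀ u v : Fin n, u ≠ v →
      (G.Adj u v ↔ dist (pos (eta n) (tt n) u) (pos (eta n) (tt n) v) ≤ 2 * rad n) :=
    fun u v huv => ⟨fun h => h.2, fun h => ⟨huv, h⟩⟩
  refine ⟨G, ⟨rad n, fun v => pos (eta n) (tt n) v, rad_pos n, hG⟩, fun r p hrp => ?_⟩
  have ht : n ≤ 5204 * tt n + 5205 := by unfold tt; omega
  have ht' : (n : ℝ) ≤ 5204 * (tt n : ℝ) + 5205 := by exact_mod_cast ht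
  have hn' : (100000 : ℝ) ≤ n := by exact_mod_cast hn
  have hb := bound n (by unfold tt; omega) r hrp.1 p
    (fun u v huv => (hG u v huv).symm.trans (hrp.2 u v huv))
  have hl := Real.log_two_gt_d9
  have h1 : (n : ℝ) / 10408 ≤ (tt n : ℝ) - 4 := by linarith
  have h2 : (n : ℝ) / 10408 * (1 / 2) ≤ ((tt n : ℝ) - 4) * Real.log 2 :=
    mul_le_mul h1 (by linarith) (by norm_num) (by linarith)
  linarith

/-- There is a family of hyperbolic uniform disk graphs that does not admit representations with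
radius `O(log n)`. In fact, for a constant `c > 0` and all large `n`, there is a hyperbolic uniform
disk graph with `n` vertices all of whose disk representations have radius at least `c n`. -/
theorem result :
    (∃ F : Set (Σ n : ℕ, SimpleGraph (Fin n)), (∀ G ∈ F, IsHUDG G.2) ∧ ¬ AdmitsLogRadius F) ∧
    (∃ c : ℝ, 0 < c ∧ ∃ n₀ : ℕ, ∀ n : ℕ, n₀ ≤ n → ∃ G : SimpleGraph (Fin n), IsHUDG G ∧
      ∀ (r : ℝ) (p : Fin n → UpperHalfPlane), IsDiskRep G r p → c * n ≤ r) := by
  refine ⟨⟨{G | IsHUDG G.2}, fun G hG => hG, ?_⟩, linear⟩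
  rintro ⟨C, hC, h⟩
  obtain ⟨c, hc, n₀, hlin⟩ := linear
  -- `C log n < c n` for large `n`
  have hlim : Filter.Tendsto (fun n : ℕ => Real.log (n : ℝ) / (n : ℝ)) Filter.atTop (nhds 0) := by
    have := Real.isLittleO_log_id_atTop.tendsto_div_nhds_zero
    exact this.comp tendsto_natCast_atTop_atTop
  have hev := (hlim.eventually (gt_mem_nhds (show (0 : ℝ) < c / C by positivity))).and
    ((Filter.eventually_ge_atTop (max n₀ 2)))
  obtain ⟨n, h1, h2⟩ := hev.exists
  have hn0 : n₀ ≤ n := (le_max_left _ _).trans h2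
  have hn2 : 2 ≤ n := (le_max_right _ _).trans h2
  have hn : (0 : ℝ) < n := by
    have : (2 : ℝ) ≤ n := by exact_mod_cast hn2
    linarith
  obtain ⟨G, hG, hGr⟩ := hlin n hn0
  obtain ⟨r, p, hrp, hr⟩ := h ⟨n, G⟩ hG hn2
  have h3 := hGr r p hrp
  simp only at hr
  rw [div_lt_div_iff₀ hn hC] at h1
  linarith

end Pool.Agent.Results.MP_1ad87a_co.LinearRadius
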